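import Mathlib

namespace Run7.h711.GD
open Finset

/-- Positive definiteness of the kernel `exp (2 <x, y>)`. -/
lemma psd_exp {ι J : Type*} [Fintype ι] [Fintype J] (x : ι → J → ℝ) (c : ι → ℝ) :
    0 ≤ ∑ i, ∑ j, c i * c j * Real.exp (2 * ∑ a, x i a * x j a) := by
  classical
  have h1 : ∀ n : ℕ, 0 ≤ ∑ i, ∑ j, c i * c j * (∑ a, x i a * x j a) ^ n := by
    intro n
    have h2 : ∀ i j, c i * c j * (∑ a, x i a * x j a) ^ n
        = ∑ f : Fin n → J, (c i * ∏ m, x i (f m)) * (c j * ∏ m, x j (f m)) := by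
      intro i j
      rw [Fintype.sum_pow, mul_sum]
      apply sum_congr rfl
      intro f _
      rw [prod_mul_distrib]; ring
    simp only [h2]
    rw [sum_congr rfl (fun i _ => sum_comm), sum_comm]
    apply sum_nonneg
    intro f _
    rw [← sum_mul_sum]
    exact mul_self_nonneg _
  have h3 : HasSum (fun n : ℕ => ∑ i, ∑ j, c i * c j * ((2 * ∑ a, x i a * x j a) ^ n / (n.factorial : ℝ)))
      (∑ i, ∑ j, c i * c j * Real.exp (2 * ∑ a, x i a * x j a)) := by
    apply hasSum_sum
    intro i _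
    apply hasSum_sum
    intro j _
    apply HasSum.mul_left
    rw [Real.exp_eq_exp_ℝ]
    exact NormedSpace.expSeries_div_hasSum_exp _
  apply h3.nonneg
  intro n
  have h4 : ∑ i, ∑ j, c i * c j * ((2 * ∑ a, x i a * x j a) ^ n / (n.factorial : ℝ))
      = (2 ^ n / (n.factorial : ℝ)) * ∑ i, ∑ j, c i * c j * (∑ a, x i a * x j a) ^ n := by
    rw [mul_sum]
    apply sum_congr rfl; intro i _
    rw [mul_sum]
    apply sum_congr rfl; intro j _
    rw [mul_pow]; ring
  rw [h4]
  exact mul_nonneg (by positivity) (h1 n)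

/-- Positive definiteness of the Gaussian kernel. -/
lemma psd_gauss {ι J : Type*} [Fintype ι] [Fintype J] (x : ι → J → ℝ) (c : ι → ℝ) :
    0 ≤ ∑ i, ∑ j, c i * c j * Real.exp (- ∑ a, (x i a - x j a) ^ 2) := by
  have h := psd_exp x (fun i => c i * Real.exp (- ∑ a, (x i a) ^ 2))
  refine h.trans (le_of_eq ?_)
  apply sum_congr rfl; intro i _
  apply sum_congr rfl; intro j _
  have e : - ∑ a, (x i a - x j a) ^ 2
      = - ∑ a, (x i a) ^ 2 + - ∑ a, (x j a) ^ 2 + 2 * ∑ a, x i a * x j a := by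
    rw [mul_sum, ← sum_neg_distrib, ← sum_neg_distrib, ← sum_neg_distrib, ← sum_add_distrib,
      ← sum_add_distrib]
    apply sum_congr rfl; intro a _
    ring
  rw [e, Real.exp_add, Real.exp_add]
  ring

/-- Cauchy–Schwarz for the Gaussian kernel with a shift. -/
lemma cs_gauss {ι J : Type*} [Fintype ι] [Fintype J] (x : ι → J → ℝ) (w : J → ℝ) (α β : ι → ℝ) :
    (∑ i, ∑ j, α i * β j * Real.exp (- ∑ a, (x i a - (x j a + w a)) ^ 2)) ^ 2
      ≤ (∑ i, ∑ j, α i * α j * Real.exp (- ∑ a, (x i a - x j a) ^ 2)) *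
        (∑ i, ∑ j, β i * β j * Real.exp (- ∑ a, (x i a - x j a) ^ 2)) := by
  set AB := ∑ i, ∑ j, α i * β j * Real.exp (- ∑ a, (x i a - (x j a + w a)) ^ 2) with hAB
  set AA := ∑ i, ∑ j, α i * α j * Real.exp (- ∑ a, (x i a - x j a) ^ 2) with hAA
  set BB := ∑ i, ∑ j, β i * β j * Real.exp (- ∑ a, (x i a - x j a) ^ 2) with hBB
  have h : ∀ p : ℝ, 0 ≤ BB * (p * p) + (2 * AB) * p + AA := by
    intro p
    have h1 := psd_gauss (ι := ι ⊕ ι) (Sum.elim x (fun i a => x i a + w a))
      (Sum.elim α (fun i => p * β i))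
    refine h1.trans (le_of_eq ?_)
    rw [Fintype.sum_sum_type]
    simp only [Fintype.sum_sum_type, Sum.elim_inl, Sum.elim_inr]
    rw [sum_add_distrib, sum_add_distrib]
    have e1 : ∑ i, ∑ j, α i * (p * β j) * Real.exp (- ∑ a, (x i a - (x j a + w a)) ^ 2)
        = p * AB := by
      rw [hAB, mul_sum]; apply sum_congr rfl; intro i _
      rw [mul_sum]; apply sum_congr rfl; intro j _
      ring
    have e2 : ∑ i, ∑ j, p * β i * α j * Real.exp (- ∑ a, (x i a + w a - x j a) ^ 2)
        = p * AB := by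
      rw [sum_comm, hAB, mul_sum]; apply sum_congr rfl; intro i _
      rw [mul_sum]; apply sum_congr rfl; intro j _
      have : ∑ a, (x j a + w a - x i a) ^ 2 = ∑ a, (x i a - (x j a + w a)) ^ 2 := by
        apply sum_congr rfl; intro a _
        ring
      rw [this]; ring
    have e3 : ∑ i, ∑ j, p * β i * (p * β j) * Real.exp (- ∑ a, (x i a + w a - (x j a + w a)) ^ 2)
        = p * p * BB := by
      rw [hBB, mul_sum]; apply sum_congr rfl; intro i _
      rw [mul_sum]; apply sum_congr rfl; intro j _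
      have : ∑ a, (x i a + w a - (x j a + w a)) ^ 2 = ∑ a, (x i a - x j a) ^ 2 := by
        apply sum_congr rfl; intro a _
        ring
      rw [this]; ring
    rw [e1, e2, e3]; ring
  have hd := discrim_le_zero h
  unfold discrim at hd
  nlinarith

end Run7.h711.GD
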