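import Pool.Agent.Run7.h165.Torus
import Pool.Agent.Run7.h711.GDKernel

/-!
Gaussian domination on the torus `(ℤ/2M)^d` for an arbitrary finite spin space (reflection
positivity and the maximum argument with the number of zero entries of the field).
The statement is the interface statement `gd` of MP_2023fc_mp (helper165).
-/

namespace Run7.h711.GD
open Finset Run7.h165
open scoped Classical

set_option linter.unusedSectionVars false

variable {d N M : ℕ} [NeZero N]

/-- the half torus -/
def rP (M : ℕ) (i : Fin d) (c : ZMod N) (x : TV d N) : Prop := (x i - c).val < M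

/-- the reflection -/
def rT (i : Fin d) (c : ZMod N) (x : TV d N) : TV d N := Function.update x i (2 * c - 1 - x i)

/-- the reflection of edges -/
def rE (i : Fin d) (c : ZMod N) (e : TE d N) : TE d N :=
  if e.2 = i then (rT i c e.1 - Pi.single i 1, i) else (rT i c e.1, e.2)

lemma rT_same (i : Fin d) (c : ZMod N) (x : TV d N) : rT i c x i = 2 * c - 1 - x i := by
  simp [rT]

lemma rT_ne {i j : Fin d} (h : j ≠ i) (c : ZMod N) (x : TV d N) : rT i c x j = x j := by
  simp [rT, h]

lemma rT_rT (i : Fin d) (c : ZMod N) (x : TV d N) : rT i c (rT i c x) = x := by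
  funext j
  by_cases h : j = i
  · subst h; rw [rT_same, rT_same]; ring
  · rw [rT_ne h, rT_ne h]

lemma val_refl (hN : N = 2 * M) (y : ZMod N) : (-y - 1).val = N - 1 - y.val := by
  have hy : y.val < N := ZMod.val_lt y
  have h1 : (-y - 1) = ((N - 1 - y.val : ℕ) : ZMod N) := by
    have h2 : ((N - 1 - y.val : ℕ) : ZMod N) + ((y.val : ℕ) : ZMod N) + ((1 : ℕ) : ZMod N)
        = ((N : ℕ) : ZMod N) := by
      rw [← Nat.cast_add, ← Nat.cast_add]
      congr 1; omega
    rw [ZMod.natCast_zmod_val, ZMod.natCast_self, Nat.cast_one] at h2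
    have h3 : ((N - 1 - y.val : ℕ) : ZMod N) = 0 - 1 - y := by
      rw [← h2]; ring
    rw [h3]; ring
  rw [h1, ZMod.val_natCast_of_lt (by omega)]

lemma rP_rT (hN : N = 2 * M) (i : Fin d) (c : ZMod N) (x : TV d N) :
    rP M i c (rT i c x) ↔ ¬ rP M i c x := by
  unfold rP
  rw [rT_same]
  have : 2 * c - 1 - x i - c = - (x i - c) - 1 := by ring
  rw [this, val_refl hN]
  have hy : (x i - c).val < N := ZMod.val_lt _
  omega

lemma rT_add_ne {i j : Fin d} (h : j ≠ i) (c : ZMod N) (x : TV d N) :
    rT i c (x + Pi.single j 1) = rT i c x + Pi.single j 1 := by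
  funext l
  by_cases hl : l = i
  · subst hl
    rw [rT_same, Pi.add_apply, Pi.add_apply, rT_same, Pi.single_eq_of_ne h.symm]
    ring
  · rw [rT_ne hl, Pi.add_apply, Pi.add_apply, rT_ne hl]

lemma rT_add_same (i : Fin d) (c : ZMod N) (x : TV d N) :
    rT i c (x + Pi.single i 1) = rT i c x - Pi.single i 1 := by
  funext l
  by_cases hl : l = i
  · subst hl
    rw [rT_same, Pi.add_apply, Pi.sub_apply, rT_same, Pi.single_eq_same]
    ring
  · rw [rT_ne hl, Pi.add_apply, Pi.sub_apply, rT_ne hl, Pi.single_eq_of_ne hl]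
    simp

lemma rT_sub_same (i : Fin d) (c : ZMod N) (x : TV d N) :
    rT i c (x - Pi.single i 1) = rT i c x + Pi.single i 1 := by
  funext l
  by_cases hl : l = i
  · subst hl
    rw [rT_same, Pi.add_apply, Pi.sub_apply, rT_same, Pi.single_eq_same]
    ring
  · rw [rT_ne hl, Pi.add_apply, Pi.sub_apply, rT_ne hl, Pi.single_eq_of_ne hl]
    simp

lemma rE_snd (i : Fin d) (c : ZMod N) (e : TE d N) : (rE i c e).2 = e.2 := by
  unfold rE; split_ifs with h
  · exact h.symm
  · rfl

lemma rE_rE (i : Fin d) (c : ZMod N) (e : TE d N) : rE i c (rE i c e) = e := by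
  obtain ⟨x, j⟩ := e
  by_cases h : j = i
  · subst h
    simp only [rE, if_true]
    rw [rT_sub_same, rT_rT]
    simp
  · simp only [rE, if_neg h]
    rw [rT_rT]

lemma src_rE_ne {i : Fin d} (c : ZMod N) {e : TE d N} (h : e.2 ≠ i) :
    tsrc (rE i c e) = rT i c (tsrc e) := by
  simp only [rE, tsrc, if_neg h]

lemma tgt_rE_ne {i : Fin d} (c : ZMod N) {e : TE d N} (h : e.2 ≠ i) :
    ttgt (rE i c e) = rT i c (ttgt e) := by
  simp only [rE, ttgt, if_neg h]
  rw [rT_add_ne h]

lemma src_rE_eq {i : Fin d} (c : ZMod N) {e : TE d N} (h : e.2 = i) :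
    tsrc (rE i c e) = rT i c (ttgt e) := by
  simp only [rE, tsrc, ttgt, if_pos h]
  rw [h, rT_add_same]

lemma tgt_rE_eq {i : Fin d} (c : ZMod N) {e : TE d N} (h : e.2 = i) :
    ttgt (rE i c e) = rT i c (tsrc e) := by
  simp only [rE, tsrc, ttgt, if_pos h]
  simp

/-- both ends in the half -/
def inP (M : ℕ) (i : Fin d) (c : ZMod N) (e : TE d N) : Prop :=
  rP M i c (tsrc e) ∧ rP M i c (ttgt e)

/-- both ends in the other half -/
def inN (M : ℕ) (i : Fin d) (c : ZMod N) (e : TE d N) : Prop :=
  ¬ rP M i c (tsrc e) ∧ ¬ rP M i c (ttgt e)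

lemma inP_rE (hN : N = 2 * M) (i : Fin d) (c : ZMod N) (e : TE d N) :
    inP M i c (rE i c e) ↔ inN M i c e := by
  unfold inP inN
  by_cases h : e.2 = i
  · rw [src_rE_eq c h, tgt_rE_eq c h, rP_rT hN, rP_rT hN]; tauto
  · rw [src_rE_ne c h, tgt_rE_ne c h, rP_rT hN, rP_rT hN]

lemma inN_rE (hN : N = 2 * M) (i : Fin d) (c : ZMod N) (e : TE d N) :
    inN M i c (rE i c e) ↔ inP M i c e := by
  rw [← inP_rE hN, rE_rE]

lemma not_inP_of_inN {i : Fin d} {c : ZMod N} {e : TE d N} (h : inN M i c e) :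
    ¬ inP M i c e := fun h' => h.1 h'.1

/-- the two ends of a crossing edge are swapped -/
lemma cross_swap (_hM : 2 ≤ M) (hN : N = 2 * M) {i : Fin d} {c : ZMod N} {e : TE d N}
    (h1 : ¬ inP M i c e) (h2 : ¬ inN M i c e) : rT i c (tsrc e) = ttgt e := by
  have hx : ¬ (rP M i c (tsrc e) ↔ rP M i c (ttgt e)) := by
    unfold inP at h1; unfold inN at h2; tauto
  obtain ⟨x, j⟩ := e
  have hj : j = i := by
    by_contra hj
    apply hx
    unfold rP tsrc ttgt
    simp only [Pi.add_apply]
    rw [Pi.single_eq_of_ne (Ne.symm hj), add_zero]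
  subst hj
  unfold rP tsrc ttgt at hx
  simp only [Pi.add_apply, Pi.single_eq_same] at hx
  unfold tsrc ttgt
  simp only
  have key : 2 * (x j - c + 1) = 0 := by
    set y := x j - c with hy
    have e1 : x j + 1 - c = y + 1 := by rw [hy]; ring
    rw [e1] at hx
    have hyl : y.val < N := ZMod.val_lt y
    have hyc : ((y.val : ℕ) : ZMod N) = y := ZMod.natCast_zmod_val y
    by_cases h3 : y.val + 1 < N
    · have h4 : (y + 1).val = y.val + 1 := by
        have : y + 1 = ((y.val + 1 : ℕ) : ZMod N) := by rw [Nat.cast_add, hyc, Nat.cast_one]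
        rw [this, ZMod.val_natCast_of_lt h3]
      rw [h4] at hx
      have h5 : y.val + 1 = M := by
        by_contra h5
        apply hx
        omega
      have h6 : y + 1 = ((M : ℕ) : ZMod N) := by
        rw [← h5, Nat.cast_add, hyc, Nat.cast_one]
      rw [h6]
      have : (2 : ZMod N) * ((M : ℕ) : ZMod N) = ((2 * M : ℕ) : ZMod N) := by push_cast; ring
      rw [this, ← hN, ZMod.natCast_self]
    · have h5 : y.val + 1 = N := by omega
      have h6 : y + 1 = ((y.val + 1 : ℕ) : ZMod N) := by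
        rw [Nat.cast_add, hyc, Nat.cast_one]
      have h7 : ((y.val + 1 : ℕ) : ZMod N) = 0 := by rw [h5, ZMod.natCast_self]
      rw [h6, h7, mul_zero]
  funext l
  by_cases hl : l = j
  · subst hl
    rw [rT_same, Pi.add_apply, Pi.single_eq_same]
    linear_combination (-1 : ZMod N) * key
  · rw [rT_ne hl, Pi.add_apply, Pi.single_eq_of_ne hl, add_zero]

/-- the edge `(x, i)` crosses the plane `c = x i + 1` -/
lemma is_cross (hM : 2 ≤ M) (hN : N = 2 * M) (x : TV d N) (i : Fin d) :
    ¬ inP M i (x i + 1) (x, i) ∧ ¬ inN M i (x i + 1) (x, i) := by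
  unfold inP inN rP tsrc ttgt
  simp only [Pi.add_apply, Pi.single_eq_same]
  have e1 : x i - (x i + 1) = - 0 - 1 := by ring
  have e2 : x i + 1 - (x i + 1) = 0 := by ring
  rw [e1, e2, val_refl hN, ZMod.val_zero]
  omega

variable {S κ : Type*} [Fintype S] [Fintype κ]

/-- the energy with the field `u` -/
noncomputable def En (v : S → κ → ℝ) (u : TE d N → κ → ℝ) (σ : TV d N → S) : ℝ :=
  ∑ e : TE d N, ∑ a : κ, (v (σ (ttgt e)) a - v (σ (tsrc e)) a - u e a) ^ 2

/-- the partition function with the field `u` -/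
noncomputable def Zf (v : S → κ → ℝ) (u : TE d N → κ → ℝ) : ℝ :=
  ∑ σ : TV d N → S, Real.exp (- En v u σ)

/-- the sign of the edge under the reflection -/
def sg (i : Fin d) (e : TE d N) : ℝ := if e.2 = i then -1 else 1

lemma sg_sq (i : Fin d) (e : TE d N) : sg i e * sg i e = 1 := by
  unfold sg; split_ifs <;> norm_num

lemma sg_rE (i : Fin d) (c : ZMod N) (e : TE d N) : sg i (rE i c e) = sg i e := by
  unfold sg; rw [rE_snd]

/-- the reflected field -/
noncomputable def tu (i : Fin d) (c : ZMod N) (u : TE d N → κ → ℝ) : TE d N → κ → ℝ :=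
  fun e a => sg i e * u (rE i c e) a

/-- the symmetrised field of the half -/
noncomputable def up (M : ℕ) (i : Fin d) (c : ZMod N) (u : TE d N → κ → ℝ) : TE d N → κ → ℝ :=
  fun e a => if inP M i c e then u e a else if inN M i c e then tu i c u e a else 0

/-- the symmetrised field of the other half -/
noncomputable def um (M : ℕ) (i : Fin d) (c : ZMod N) (u : TE d N → κ → ℝ) : TE d N → κ → ℝ :=
  fun e a => if inN M i c e then u e a else if inP M i c e then tu i c u e a else 0

/-- the energy of the half -/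
noncomputable def Fh (M : ℕ) (i : Fin d) (c : ZMod N) (v : S → κ → ℝ) (u : TE d N → κ → ℝ)
    (s : TV d N → S) : ℝ :=
  ∑ e : TE d N, if inP M i c e then
    ∑ a : κ, (v (s (ttgt e)) a - v (s (tsrc e)) a - u e a) ^ 2 else 0

/-- glueing -/
noncomputable def gl (M : ℕ) (i : Fin d) (c : ZMod N) (s s' : TV d N → S) : TV d N → S :=
  fun x => if rP M i c x then s x else s' (rT i c x)

/-- the end of a crossing edge in the half -/
noncomputable def pe (M : ℕ) (i : Fin d) (c : ZMod N) (e : TE d N) : TV d N :=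
  if rP M i c (tsrc e) then tsrc e else ttgt e

/-- the boundary vector -/
noncomputable def Av (M : ℕ) (i : Fin d) (c : ZMod N) (v : S → κ → ℝ) (s : TV d N → S) :
    TE d N × κ → ℝ :=
  fun q => if inP M i c q.1 ∨ inN M i c q.1 then 0 else v (s (pe M i c q.1)) q.2

/-- the shift on the boundary -/
noncomputable def wv (M : ℕ) (i : Fin d) (c : ZMod N) (u : TE d N → κ → ℝ) : TE d N × κ → ℝ :=
  fun q => if inP M i c q.1 ∨ inN M i c q.1 then 0 else
    if rP M i c (tsrc q.1) then - u q.1 q.2 else u q.1 q.2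

lemma En_gl (hM : 2 ≤ M) (hN : N = 2 * M) (i : Fin d) (c : ZMod N) (v : S → κ → ℝ)
    (u : TE d N → κ → ℝ) (s s' : TV d N → S) :
    En v u (gl M i c s s') = Fh M i c v u s + Fh M i c v (tu i c u) s'
      + ∑ q : TE d N × κ, (Av M i c v s q - (Av M i c v s' q + wv M i c u q)) ^ 2 := by
  have h1 : Fh M i c v (tu i c u) s' = ∑ e : TE d N, if inN M i c e then
      ∑ a : κ, (v (s' (rT i c (ttgt e))) a - v (s' (rT i c (tsrc e))) a - u e a) ^ 2 else 0 := by
    unfold Fh
    rw [← (Equiv.sum_comp (Function.Involutive.toPerm (rE i c) (rE_rE i c)))]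
    apply sum_congr rfl
    intro e _
    simp only [Function.Involutive.coe_toPerm]
    by_cases hp : inN M i c e
    · rw [if_pos ((inP_rE hN i c e).mpr hp), if_pos hp]
      apply sum_congr rfl
      intro a _
      unfold tu
      rw [rE_rE, sg_rE]
      by_cases h : e.2 = i
      · rw [src_rE_eq c h, tgt_rE_eq c h]
        unfold sg
        rw [if_pos h]; ring
      · rw [src_rE_ne c h, tgt_rE_ne c h]
        unfold sg
        rw [if_neg h]; ring
    · rw [if_neg (fun h => hp ((inP_rE hN i c e).mp h)), if_neg hp]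
  have h0 : ∑ q : TE d N × κ, (Av M i c v s q - (Av M i c v s' q + wv M i c u q)) ^ 2
      = ∑ e : TE d N, ∑ a : κ,
        (Av M i c v s (e, a) - (Av M i c v s' (e, a) + wv M i c u (e, a))) ^ 2 :=
    Fintype.sum_prod_type (α₁ := TE d N) (α₂ := κ) _
  rw [h1, h0]
  unfold En Fh
  rw [← sum_add_distrib, ← sum_add_distrib]
  apply sum_congr rfl
  intro e _
  by_cases hp : inP M i c e
  · have hn : ¬ inN M i c e := fun h => not_inP_of_inN h hp
    rw [if_pos hp, if_neg hn, add_zero]
    have h2 : ∑ a : κ, (Av M i c v s (e, a) - (Av M i c v s' (e, a) + wv M i c u (e, a))) ^ 2 = 0 := by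
      apply sum_eq_zero
      intro a _
      simp [Av, wv, hp]
    rw [h2, add_zero]
    apply sum_congr rfl
    intro a _
    unfold gl
    rw [if_pos hp.1, if_pos hp.2]
  · by_cases hn : inN M i c e
    · rw [if_neg hp, if_pos hn, zero_add]
      have h2 : ∑ a : κ, (Av M i c v s (e, a) - (Av M i c v s' (e, a) + wv M i c u (e, a))) ^ 2 = 0 := by
        apply sum_eq_zero
        intro a _
        simp [Av, wv, hn]
      rw [h2, add_zero]
      apply sum_congr rfl
      intro a _
      unfold gl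
      rw [if_neg hn.1, if_neg hn.2]
    · rw [if_neg hp, if_neg hn, zero_add, zero_add]
      apply sum_congr rfl
      intro a _
      have hsw := cross_swap hM hN hp hn
      have hsw' : rT i c (ttgt e) = tsrc e := by rw [← hsw, rT_rT]
      have hor : ¬ (inP M i c e ∨ inN M i c e) := by tauto
      unfold Av wv pe gl
      simp only [if_neg hor]
      by_cases hs : rP M i c (tsrc e)
      · have ht : ¬ rP M i c (ttgt e) := fun h => hp ⟨hs, h⟩
        rw [if_pos hs, if_pos hs, if_neg ht, hsw', if_pos hs]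
        ring
      · have ht : rP M i c (ttgt e) := by
          by_contra h; exact hn ⟨hs, h⟩
        rw [if_neg hs, if_neg hs, if_pos ht, hsw, if_neg hs]
        ring

lemma wv_up (i : Fin d) (c : ZMod N) (u : TE d N → κ → ℝ) :
    wv M i c (up M i c u) = fun _ => 0 := by
  funext q
  unfold wv up
  split_ifs <;> simp_all

lemma wv_um (i : Fin d) (c : ZMod N) (u : TE d N → κ → ℝ) :
    wv M i c (um M i c u) = fun _ => 0 := by
  funext q
  unfold wv um
  split_ifs <;> simp_all

lemma Fh_congr {i : Fin d} {c : ZMod N} (v : S → κ → ℝ) {u u' : TE d N → κ → ℝ}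
    (h : ∀ e, inP M i c e → ∀ a, u e a = u' e a) (s : TV d N → S) :
    Fh M i c v u s = Fh M i c v u' s := by
  unfold Fh
  apply sum_congr rfl
  intro e _
  by_cases hp : inP M i c e
  · rw [if_pos hp, if_pos hp]
    apply sum_congr rfl
    intro a _
    rw [h e hp a]
  · rw [if_neg hp, if_neg hp]

lemma up_inP {i : Fin d} {c : ZMod N} (u : TE d N → κ → ℝ) {e : TE d N} (h : inP M i c e)
    (a : κ) : up M i c u e a = u e a := by
  unfold up; rw [if_pos h]

lemma um_inP {i : Fin d} {c : ZMod N} (u : TE d N → κ → ℝ) {e : TE d N} (h : inP M i c e)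
    (a : κ) : um M i c u e a = tu i c u e a := by
  unfold um; rw [if_neg (fun hn => not_inP_of_inN hn h), if_pos h]

lemma tu_up_inP (hN : N = 2 * M) {i : Fin d} {c : ZMod N} (u : TE d N → κ → ℝ) {e : TE d N}
    (h : inP M i c e) (a : κ) : tu i c (up M i c u) e a = u e a := by
  have hn : inN M i c (rE i c e) := (inN_rE hN i c e).mpr h
  unfold tu up
  rw [if_neg (not_inP_of_inN hn), if_pos hn]
  unfold tu
  rw [rE_rE, sg_rE, ← mul_assoc, sg_sq, one_mul]

lemma tu_um_inP (hN : N = 2 * M) {i : Fin d} {c : ZMod N} (u : TE d N → κ → ℝ) {e : TE d N}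
    (h : inP M i c e) (a : κ) : tu i c (um M i c u) e a = tu i c u e a := by
  have hn : inN M i c (rE i c e) := (inN_rE hN i c e).mpr h
  unfold tu um
  rw [if_pos hn]

/-- The pairs of configurations, encoded by the glued one and the rest. -/
noncomputable def glEquiv (hN : N = 2 * M) (i : Fin d) (c : ZMod N) :
    (TV d N → S) × (TV d N → S) ≃ (TV d N → S) × (TV d N → S) where
  toFun p := (fun x => if rP M i c x then p.1 x else p.2 (rT i c x),
    fun x => if rP M i c x then p.1 (rT i c x) else p.2 x)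
  invFun p := (fun x => if rP M i c x then p.1 x else p.2 (rT i c x),
    fun x => if rP M i c x then p.1 (rT i c x) else p.2 x)
  left_inv p := by
    ext x
    · simp only
      by_cases hx : rP M i c x
      · simp [hx]
      · have hx' : rP M i c (rT i c x) := (rP_rT hN i c x).mpr hx
        simp [hx, hx', rT_rT]
    · simp only
      by_cases hx : rP M i c x
      · have hx' : ¬ rP M i c (rT i c x) := fun h => (rP_rT hN i c x).mp h hx
        simp [hx, hx', rT_rT]
      · simp [hx]
  right_inv p := by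
    ext x
    · simp only
      by_cases hx : rP M i c x
      · simp [hx]
      · have hx' : rP M i c (rT i c x) := (rP_rT hN i c x).mpr hx
        simp [hx, hx', rT_rT]
    · simp only
      by_cases hx : rP M i c x
      · have hx' : ¬ rP M i c (rT i c x) := fun h => (rP_rT hN i c x).mp h hx
        simp [hx, hx', rT_rT]
      · simp [hx]

lemma sum_gl (hN : N = 2 * M) (i : Fin d) (c : ZMod N) (f : (TV d N → S) → ℝ) :
    ∑ s, ∑ s', f (gl M i c s s') = (Fintype.card (TV d N → S) : ℝ) * ∑ σ, f σ := by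
  have h1 : ∑ s, ∑ s', f (gl M i c s s') = ∑ p : (TV d N → S) × (TV d N → S), f (gl M i c p.1 p.2) := by
    rw [Fintype.sum_prod_type]
  rw [h1]
  have h2 := Equiv.sum_comp (glEquiv (S := S) hN i c) (fun p => f p.1)
  have h3 : ∀ p : (TV d N → S) × (TV d N → S), f (gl M i c p.1 p.2) = f (glEquiv hN i c p).1 := by
    intro p; rfl
  rw [sum_congr rfl (fun p _ => h3 p), h2, Fintype.sum_prod_type]
  simp only [sum_const, card_univ, nsmul_eq_mul]
  rw [← mul_sum]

/-- Reflection positivity. -/
lemma rp (hM : 2 ≤ M) (hN : N = 2 * M) (i : Fin d) (c : ZMod N) (v : S → κ → ℝ)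
    (u : TE d N → κ → ℝ) : (Zf v u) ^ 2 ≤ Zf v (up M i c u) * Zf v (um M i c u) := by
  rcases isEmpty_or_nonempty S with hS | hS
  · have h0 : ∀ u : TE d N → κ → ℝ, Zf v u = 0 := by
      intro u
      unfold Zf
      have : IsEmpty (TV d N → S) := ⟨fun σ => hS.false (σ 0)⟩
      exact Fintype.sum_empty _
    rw [h0, h0, h0]; norm_num
  set C : ℝ := (Fintype.card (TV d N → S) : ℝ) with hC
  have hC0 : 0 < C := by
    rw [hC]; exact_mod_cast Fintype.card_pos
  have key : ∀ u' : TE d N → κ → ℝ, C * Zf v u' = ∑ s : TV d N → S, ∑ s' : TV d N → S,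
      Real.exp (- Fh M i c v u' s) * Real.exp (- Fh M i c v (tu i c u') s') *
        Real.exp (- ∑ q : TE d N × κ, (Av M i c v s q - (Av M i c v s' q + wv M i c u' q)) ^ 2) := by
    intro u'
    unfold Zf
    rw [hC, ← sum_gl hN i c]
    apply sum_congr rfl; intro s _
    apply sum_congr rfl; intro s' _
    rw [En_gl hM hN, neg_add, neg_add, Real.exp_add, Real.exp_add]
  have k1 := key u
  have k2 := key (up M i c u)
  have k3 := key (um M i c u)
  rw [wv_up] at k2
  rw [wv_um] at k3
  have e1 : ∀ s : TV d N → S, Fh M i c v (up M i c u) s = Fh M i c v u s :=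
    Fh_congr v (fun e h a => up_inP u h a)
  have e2 : ∀ s : TV d N → S, Fh M i c v (tu i c (up M i c u)) s = Fh M i c v u s :=
    Fh_congr v (fun e h a => tu_up_inP hN u h a)
  have e3 : ∀ s : TV d N → S, Fh M i c v (um M i c u) s = Fh M i c v (tu i c u) s :=
    Fh_congr v (fun e h a => um_inP u h a)
  have e4 : ∀ s : TV d N → S, Fh M i c v (tu i c (um M i c u)) s = Fh M i c v (tu i c u) s :=
    Fh_congr v (fun e h a => tu_um_inP hN u h a)
  simp only [e1, e2, add_zero] at k2
  simp only [e3, e4, add_zero] at k3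
  have h := cs_gauss (ι := TV d N → S) (Av M i c v) (wv M i c u)
    (fun s => Real.exp (- Fh M i c v u s)) (fun s => Real.exp (- Fh M i c v (tu i c u) s))
  rw [← k1, ← k2, ← k3] at h
  have h' : C ^ 2 * (Zf v u) ^ 2 ≤ C ^ 2 * (Zf v (up M i c u) * Zf v (um M i c u)) := by
    nlinarith
  exact le_of_mul_le_mul_left h' (by positivity)

/-- the number of nonzero entries of a field -/
noncomputable def nz (u : TE d N → κ → ℝ) : ℕ := ∑ e : TE d N, ∑ a : κ, if u e a ≠ 0 then 1 else 0

lemma sg_ne (i : Fin d) (e : TE d N) : sg i e ≠ 0 := by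
  unfold sg; split_ifs <;> norm_num

lemma nz_up_um (hN : N = 2 * M) (i : Fin d) (c : ZMod N) (u : TE d N → κ → ℝ)
    {e₀ : TE d N} (h1 : ¬ inP M i c e₀) (h2 : ¬ inN M i c e₀) {a₀ : κ} (h3 : u e₀ a₀ ≠ 0) :
    nz (up M i c u) + nz (um M i c u) < 2 * nz u := by
  have e1 : nz (up M i c u) = ∑ e : TE d N, ((if inP M i c e then
      (∑ a : κ, if u e a ≠ 0 then 1 else 0) else 0) + (if inN M i c e then
      (∑ a : κ, if u (rE i c e) a ≠ 0 then 1 else 0) else 0)) := by
    unfold nz
    apply sum_congr rfl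
    intro e _
    unfold up
    by_cases hp : inP M i c e
    · have hn : ¬ inN M i c e := fun h => not_inP_of_inN h hp
      simp [hp, hn]
    · by_cases hn : inN M i c e
      · simp [hp, hn, tu, sg_ne]
      · simp [hp, hn]
  have e2 : nz (um M i c u) = ∑ e : TE d N, ((if inN M i c e then
      (∑ a : κ, if u e a ≠ 0 then 1 else 0) else 0) + (if inP M i c e then
      (∑ a : κ, if u (rE i c e) a ≠ 0 then 1 else 0) else 0)) := by
    unfold nz
    apply sum_congr rfl
    intro e _
    unfold um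
    by_cases hp : inP M i c e
    · have hn : ¬ inN M i c e := fun h => not_inP_of_inN h hp
      simp [hp, hn, tu, sg_ne]
    · by_cases hn : inN M i c e
      · simp [hp, hn]
      · simp [hp, hn]
  have e3 : ∑ e : TE d N, (if inN M i c e then
      (∑ a : κ, if u (rE i c e) a ≠ 0 then 1 else 0) else 0)
      = ∑ e : TE d N, (if inP M i c e then (∑ a : κ, if u e a ≠ 0 then 1 else 0) else 0) := by
    rw [← (Equiv.sum_comp (Function.Involutive.toPerm (rE i c) (rE_rE i c))
      (fun e => if inP M i c e then (∑ a : κ, if u e a ≠ 0 then 1 else 0) else 0))]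
    apply sum_congr rfl
    intro e _
    rw [Function.Involutive.coe_toPerm]
    by_cases hh : inN M i c e
    · rw [if_pos hh, if_pos ((inP_rE hN i c e).mpr hh)]
    · rw [if_neg hh, if_neg (fun h => hh ((inP_rE hN i c e).mp h))]
  have e4 : ∑ e : TE d N, (if inP M i c e then
      (∑ a : κ, if u (rE i c e) a ≠ 0 then 1 else 0) else 0)
      = ∑ e : TE d N, (if inN M i c e then (∑ a : κ, if u e a ≠ 0 then 1 else 0) else 0) := by
    rw [← (Equiv.sum_comp (Function.Involutive.toPerm (rE i c) (rE_rE i c))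
      (fun e => if inN M i c e then (∑ a : κ, if u e a ≠ 0 then 1 else 0) else 0))]
    apply sum_congr rfl
    intro e _
    rw [Function.Involutive.coe_toPerm]
    by_cases hh : inP M i c e
    · rw [if_pos hh, if_pos ((inN_rE hN i c e).mpr hh)]
    · rw [if_neg hh, if_neg (fun h => hh ((inN_rE hN i c e).mp h))]
  rw [e1, e2, sum_add_distrib, sum_add_distrib, e3, e4]
  have e5 : (∑ e : TE d N, (if inP M i c e then (∑ a : κ, if u e a ≠ 0 then 1 else 0) else 0))
      + ∑ e : TE d N, (if inN M i c e then (∑ a : κ, if u e a ≠ 0 then 1 else 0) else 0)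
      < nz u := by
    rw [← sum_add_distrib]
    unfold nz
    apply sum_lt_sum
    · intro e _
      by_cases hp : inP M i c e
      · have hn : ¬ inN M i c e := fun h => not_inP_of_inN h hp
        rw [if_pos hp, if_neg hn, add_zero]
      · rw [if_neg hp, zero_add]
        split_ifs
        · exact le_refl _
        · exact Nat.zero_le _
    · refine ⟨e₀, mem_univ _, ?_⟩
      rw [if_neg h1, if_neg h2, zero_add]
      apply sum_pos'
      · intro a _; exact Nat.zero_le _
      · refine ⟨a₀, mem_univ _, ?_⟩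
        rw [if_pos h3]; norm_num
  omega

lemma Zf_pos [Nonempty S] (v : S → κ → ℝ) (u : TE d N → κ → ℝ) : 0 < Zf v u := by
  unfold Zf
  exact sum_pos (fun σ _ => Real.exp_pos _) univ_nonempty

theorem gauss_dom (hM : 2 ≤ M) (hN : N = 2 * M) (v : S → κ → ℝ) (u : TE d N → κ → ℝ) :
    Zf v u ≤ Zf v (fun _ _ => 0 : TE d N → κ → ℝ) := by
  rcases isEmpty_or_nonempty S with hS | hS
  · have h0 : ∀ u : TE d N → κ → ℝ, Zf v u = 0 := by
      intro u
      unfold Zf
      have : IsEmpty (TV d N → S) := ⟨fun σ => hS.false (σ 0)⟩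
      exact Fintype.sum_empty _
    rw [h0, h0]
  -- the finite set of values
  set V : Finset ℝ := insert 0 ((univ.image (fun q : TE d N × κ => u q.1 q.2)) ∪
    (univ.image (fun q : TE d N × κ => - u q.1 q.2))) with hV
  have hV0 : (0 : ℝ) ∈ V := mem_insert_self _ _
  have hVneg : ∀ y ∈ V, -y ∈ V := by
    intro y hy
    rw [hV, mem_insert, mem_union, mem_image, mem_image] at hy ⊢
    rcases hy with rfl | ⟨q, _, rfl⟩ | ⟨q, _, rfl⟩
    · left; simp
    · right; right; exact ⟨q, mem_univ _, rfl⟩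
    · right; left; exact ⟨q, mem_univ _, by simp⟩
  set FF : Finset (TE d N → κ → ℝ) := Fintype.piFinset (fun _ => Fintype.piFinset (fun _ => V))
    with hFF
  have hmem : ∀ w : TE d N → κ → ℝ, w ∈ FF ↔ ∀ e a, w e a ∈ V := by
    intro w
    rw [hFF, Fintype.mem_piFinset]
    simp only [Fintype.mem_piFinset]
  have huF : u ∈ FF := by
    rw [hmem]
    intro e a
    rw [hV, mem_insert, mem_union, mem_image]
    exact Or.inr (Or.inl ⟨(e, a), mem_univ _, rfl⟩)
  have htuV : ∀ (i : Fin d) (c : ZMod N) (w : TE d N → κ → ℝ), w ∈ FF → ∀ e a,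
      tu i c w e a ∈ V := by
    intro i c w hw e a
    rw [hmem] at hw
    unfold tu sg
    split_ifs
    · rw [neg_one_mul]; exact hVneg _ (hw _ _)
    · rw [one_mul]; exact hw _ _
  have hup : ∀ (i : Fin d) (c : ZMod N) (w : TE d N → κ → ℝ), w ∈ FF → up M i c w ∈ FF := by
    intro i c w hw
    rw [hmem]
    intro e a
    have hw' := (hmem w).mp hw
    unfold up
    split_ifs
    · exact hw' _ _
    · exact htuV i c w hw e a
    · exact hV0
  have hum : ∀ (i : Fin d) (c : ZMod N) (w : TE d N → κ → ℝ), w ∈ FF → um M i c w ∈ FF := by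
    intro i c w hw
    rw [hmem]
    intro e a
    have hw' := (hmem w).mp hw
    unfold um
    split_ifs
    · exact hw' _ _
    · exact htuV i c w hw e a
    · exact hV0
  obtain ⟨w₀, hw₀, hmax⟩ := exists_max_image FF (fun w => Zf v w) ⟨u, huF⟩
  obtain ⟨w, hw, hmin⟩ := exists_min_image (FF.filter (fun w => Zf v w = Zf v w₀)) (fun w => nz w)
    ⟨w₀, mem_filter.mpr ⟨hw₀, rfl⟩⟩
  obtain ⟨hwF, hwZ⟩ := mem_filter.mp hw
  have hzero : w = fun _ _ => 0 := by
    by_contra hne
    have : ∃ e a, w e a ≠ 0 := by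
      by_contra hcon
      push Not at hcon
      exact hne (by funext e a; exact hcon e a)
    obtain ⟨⟨x, i⟩, a, hxa⟩ := this
    obtain ⟨c1, c2⟩ := is_cross hM hN x i
    have hrp := rp hM hN i (x i + 1) v w
    have hlt := nz_up_um hN i (x i + 1) w c1 c2 hxa
    have m1 := hmax _ (hup i (x i + 1) w hwF)
    have m2 := hmax _ (hum i (x i + 1) w hwF)
    rw [hwZ] at hrp
    have p0 := Zf_pos v w₀
    have p1 := Zf_pos v (up M i (x i + 1) w)
    have p2 := Zf_pos v (um M i (x i + 1) w)
    have q1 : Zf v (up M i (x i + 1) w) = Zf v w₀ := by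
      apply le_antisymm m1
      nlinarith
    have q2 : Zf v (um M i (x i + 1) w) = Zf v w₀ := by
      apply le_antisymm m2
      nlinarith
    have r1 := hmin _ (mem_filter.mpr ⟨hup i (x i + 1) w hwF, q1⟩)
    have r2 := hmin _ (mem_filter.mpr ⟨hum i (x i + 1) w hwF, q2⟩)
    omega
  rw [← hzero, hwZ]
  exact hmax u huF

/-- Gaussian domination on the torus, in the form of the interface. -/
theorem gd {d N M : ℕ} [NeZero N] (hM : 2 ≤ M) (hN : N = 2 * M) {S κ : Type*} [Fintype S]
    [Fintype κ] (v : S → κ → ℝ) (u : TE d N → κ → ℝ) :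
    ∑ σ : TV d N → S, Real.exp (-∑ e : TE d N, ∑ a : κ,
        (v (σ (ttgt e)) a - v (σ (tsrc e)) a - u e a) ^ 2) ≤
      ∑ σ : TV d N → S, Real.exp (-∑ e : TE d N, ∑ a : κ,
        (v (σ (ttgt e)) a - v (σ (tsrc e)) a) ^ 2) := by
  have h := gauss_dom hM hN v u
  unfold Zf En at h
  simpa only [sub_zero] using h

end Run7.h711.GD
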