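import Pool.Agent.Run7.h177.EC1

/-!
Piece C3 for the theorem of helper418 on all entire curves: functions which are integral over the coordinate rings
of all charts are constant (helper711).
-/

set_option autoImplicit false
set_option linter.all false

open MvPolynomial

namespace Run7.h711.EP

open Pool.Agent.Y190.OP Pool.Agent.W602.GT Pool.Agent.N155 Run7.h418 Run7.h418.E
open Run7.h177.EP (nullst aeval_inl ccM_self_inl ccM_self_inr)

/-- a nonconstant function has a pole at some place -/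
theorem exists_place {Ω : Type} [Field Ω] [Algebra ℂ Ω] {g : Ω}
    (hg : ∀ c : ℂ, g ≠ algebraMap ℂ Ω c) :
    ∃ V : ValuationSubring Ω, (∀ c : ℂ, algebraMap ℂ Ω c ∈ V) ∧ g ∉ V := by
  have hR : g ∉ (integralClosure ℂ Ω).toSubring := by
    intro h
    obtain ⟨c, hc⟩ := (IsAlgClosed.algebraMap_bijective_of_isIntegral (k := ℂ)
      (K := integralClosure ℂ Ω)).2 ⟨g, h⟩
    exact hg c (congrArg Subtype.val hc).symm
  obtain ⟨V, hV, hgV⟩ := Subring.exists_le_valuationSubring_of_isIntegrallyClosedIn hR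
  exact ⟨V, fun c => hV ((integralClosure ℂ Ω).algebraMap_mem c), hgV⟩

/-- valuation rings are integrally closed -/
theorem mem_of_integral {Ω : Type} [Field Ω] [Algebra ℂ Ω] (V : ValuationSubring Ω)
    (hV : ∀ c : ℂ, algebraMap ℂ Ω c ∈ V) {s : Set Ω} (hs : ∀ x ∈ s, x ∈ V) {g : Ω}
    (hg : IsIntegral (Algebra.adjoin ℂ s) g) : g ∈ V := by
  have hle : ∀ x ∈ Algebra.adjoin ℂ s, x ∈ V := by
    intro x hx
    induction hx using Algebra.adjoin_induction with
    | mem x hx => exact hs x hx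
    | algebraMap c => exact hV c
    | add x y _ _ hx hy => exact add_mem hx hy
    | mul x y _ _ hx hy => exact mul_mem hx hy
  let φ : Algebra.adjoin ℂ s →+* V :=
    { toFun := fun x => ⟨x.1, hle x.1 x.2⟩
      map_one' := rfl
      map_mul' := fun _ _ => rfl
      map_zero' := rfl
      map_add' := fun _ _ => rfl }
  obtain ⟨p, hp, hpx⟩ := hg
  have h1 : IsIntegral V g := by
    refine ⟨p.map φ, hp.map φ, ?_⟩
    rw [Polynomial.eval₂_map]
    exact hpx
  obtain ⟨y, hy⟩ := (IsIntegrallyClosed.isIntegral_iff (R := V) (K := Ω)).1 h1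
  rw [← hy]
  exact y.2

/-- the expansion in the second variables -/
noncomputable def tt (N : ℕ) : MvPolynomial (Fin N ⊕ Fin N) ℂ →ₐ[ℂ]
    Polynomial (MvPolynomial (Fin N ⊕ Fin N) ℂ) :=
  aeval (Sum.elim (fun l => Polynomial.C (X (Sum.inl l)))
    (fun l => Polynomial.C (X (Sum.inr l)) * Polynomial.X))

theorem eval_tt {N : ℕ} {A : Type} [CommRing A] [Algebra ℂ A] (a : Fin N ⊕ Fin N → A) (t : A)
    (P : MvPolynomial (Fin N ⊕ Fin N) ℂ) :
    ((tt N P).map (aeval a : MvPolynomial (Fin N ⊕ Fin N) ℂ →ₐ[ℂ] A).toRingHom).eval t =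
      aeval (Sum.elim (a ∘ Sum.inl) (t • (a ∘ Sum.inr))) P := by
  unfold tt
  induction P using MvPolynomial.induction_on with
  | C c =>
    rw [← MvPolynomial.algebraMap_eq, AlgHom.commutes, AlgHom.commutes,
      Polynomial.algebraMap_apply, Polynomial.map_C, Polynomial.eval_C]
    exact (aeval a).commutes c
  | add p q hp hq => rw [map_add, Polynomial.map_add, Polynomial.eval_add, hp, hq, map_add]
  | mul_X p l hp =>
    rw [map_mul, Polynomial.map_mul, Polynomial.eval_mul, hp, map_mul, aeval_X, aeval_X]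
    congr 1
    rcases l with l | l
    · rw [Sum.elim_inl, Polynomial.map_C, Polynomial.eval_C]
      exact aeval_X a _
    · rw [Sum.elim_inr, Polynomial.map_mul, Polynomial.map_C, Polynomial.map_X,
        Polynomial.eval_mul, Polynomial.eval_C, Polynomial.eval_X]
      have : (aeval a : MvPolynomial (Fin N ⊕ Fin N) ℂ →ₐ[ℂ] A).toRingHom (X (Sum.inr l)) =
        a (Sum.inr l) := aeval_X a _
      rw [this, Sum.elim_inr, Pi.smul_apply, smul_eq_mul, mul_comm]
      rfl


section

variable {n : ℕ} {ι κ τ : Type} {F : ι → MvPolynomial (Fin (n + 1)) ℂ} {m : κ → ℕ}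
  {σ : κ → (Fin (n + 1) → ℂ) → (Fin (n + 1) → ℂ) → ℂ} {js : τ → κ} {P : τ → Rn (n + 1)}
  {H : τ → MvPolynomial (Fin (n + 1)) ℂ} {c : κ → ℂ}

/-- the components of the representations on the complex points -/
theorem coeff_Ep (hσ : ∀ j, SymForm F (m j) (σ j)) (hcov : Cov F σ js P H) {k : Fin (n + 1)}
    (s : τ) {b : Fin (n + 1) ⊕ Fin (n + 1) → ℂ} (hb : b ∈ Ep F σ c k)
    (hH : eval (b ∘ Sum.inl) (H s) ≠ 0) (d : ℕ) :
    eval b ((tt (n + 1) (P s)).coeff d) =
      if d = m (js s) then c (js s) * eval (b ∘ Sum.inl) (H s) else 0 := by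
  have h1 : (tt (n + 1) (P s)).map (aeval b : Rn (n + 1) →ₐ[ℂ] ℂ).toRingHom =
      Polynomial.monomial (m (js s)) (c (js s) * eval (b ∘ Sum.inl) (H s)) := by
    refine Polynomial.funext fun t => ?_
    rw [eval_tt, Polynomial.eval_monomial]
    have h2 := hcov.rep s (b ∘ Sum.inl) (Tg.cone hb.1) hH (t • (b ∘ Sum.inr))
      (Tan.smul hb.1.2.2.2 t)
    rw [(hσ (js s)).deg _ (Tg.cone hb.1) _ hb.1.2.2.2] at h2
    have h3 : σ (js s) (b ∘ Sum.inl) (b ∘ Sum.inr) = c (js s) := hb.2 (js s)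
    rw [h3, eq_div_iff hH] at h2
    have h4 : aeval (Sum.elim (b ∘ Sum.inl) (t • (b ∘ Sum.inr))) (P s) =
        eval (Sum.elim (b ∘ Sum.inl) (t • (b ∘ Sum.inr))) (P s) :=
      congrFun (MvPolynomial.aeval_eq_eval _) (P s)
    rw [h4, ← h2]
    ring
  have h2 := congrArg (fun p => p.coeff d) h1
  simp only [Polynomial.coeff_map, Polynomial.coeff_monomial] at h2
  have h3 : (aeval b : Rn (n + 1) →ₐ[ℂ] ℂ).toRingHom ((tt (n + 1) (P s)).coeff d) =
      eval b ((tt (n + 1) (P s)).coeff d) := congrFun (MvPolynomial.aeval_eq_eval b) _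
  rw [h3] at h2
  rw [h2]
  by_cases hd : d = m (js s)
  · rw [if_pos hd, if_pos hd.symm]
  · rw [if_neg hd, if_neg (Ne.symm hd)]

variable {Ω : Type} [Field Ω] [Algebra ℂ Ω] {i0 : Fin (n + 1)}
  {a : Fin (n + 1) ⊕ Fin (n + 1) → Ω} {d : ℕ} {J : Fin d → Derivation ℂ Ω Ω} {α : Fin d → κ → ℂ}

/-- the values of the representations on the multiples of the vector -/
theorem val_smul (hC : C1) (h : Hyp F m σ js P H c i0 a J α) {k : Fin (n + 1)}
    (hk : a (Sum.inl k) ≠ 0) (s : τ) (t : Ω) :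
    aeval (ccM k a ∘ Sum.inl) (H s) *
      aeval (Sum.elim (ccM k a ∘ Sum.inl) (t • (ccM k a ∘ Sum.inr))) (P s) =
      t ^ m (js s) * (algebraMap ℂ Ω (c (js s)) * aeval (ccM k a ∘ Sum.inl) (H s) ^ 2) := by
  set w := ccM k a with hw
  have h1 : Polynomial.C (aeval (w ∘ Sum.inl) (H s)) *
      (tt (n + 1) (P s)).map (aeval w : Rn (n + 1) →ₐ[ℂ] Ω).toRingHom =
      Polynomial.monomial (m (js s))
        (algebraMap ℂ Ω (c (js s)) * aeval (w ∘ Sum.inl) (H s) ^ 2) := by
    ext e
    rw [Polynomial.coeff_C_mul, Polynomial.coeff_map, Polynomial.coeff_monomial]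
    have h2 := hC n ι κ τ F m σ js P H c Ω i0 a d J α h k hk (rename Sum.inl (H s) *
      ((tt (n + 1) (P s)).coeff e - if e = m (js s) then C (c (js s)) * rename Sum.inl (H s)
        else 0)) (by
          intro b hb
          rw [map_mul, eval_inl]
          by_cases hH : eval (b ∘ Sum.inl) (H s) = 0
          · rw [hH, zero_mul]
          · rw [map_sub, coeff_Ep h.sym h.cov s hb hH e]
            by_cases he : e = m (js s)
            · rw [if_pos he, if_pos he, map_mul, eval_C, eval_inl, sub_self, mul_zero]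
            · rw [if_neg he, if_neg he, map_zero, sub_self, mul_zero])
    rw [map_mul, map_sub, aeval_inl, mul_sub, sub_eq_zero] at h2
    have h3 : (aeval w : Rn (n + 1) →ₐ[ℂ] Ω).toRingHom ((tt (n + 1) (P s)).coeff e) =
        aeval w ((tt (n + 1) (P s)).coeff e) := rfl
    rw [h3, h2]
    by_cases he : e = m (js s)
    · rw [if_pos he, if_pos he.symm, map_mul, aeval_C, aeval_inl]
      ring
    · rw [if_neg he, if_neg (Ne.symm he), map_zero, mul_zero]
  have h2 := congrArg (fun p => p.eval t) h1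
  simp only [Polynomial.eval_mul, Polynomial.eval_C, Polynomial.eval_monomial] at h2
  rw [eval_tt] at h2
  rw [h2, mul_comm]

theorem tan_smul {A : Type} [CommRing A] [Algebra ℂ A] (w : Fin (n + 1) ⊕ Fin (n + 1) → A) (t : A)
    (i : ι) : aeval (Sum.elim (w ∘ Sum.inl) (t • (w ∘ Sum.inr))) (tanP F i) =
      t * aeval w (tanP F i) := by
  unfold tanP
  rw [map_sum, map_sum, Finset.mul_sum]
  refine Finset.sum_congr rfl fun k _ => ?_
  rw [map_mul, map_mul, aeval_rename, aeval_rename, aeval_X, aeval_X, Sum.elim_comp_inl,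
    Sum.elim_inr, Pi.smul_apply, smul_eq_mul]
  show _ * (t * w (Sum.inr k)) = _
  ring

/-- the equations at infinity -/
def gens0 (F : ι → MvPolynomial (Fin (n + 1)) ℂ) (P : τ → Rn (n + 1))
    (H : τ → MvPolynomial (Fin (n + 1)) ℂ) (k : Fin (n + 1)) : Set (Rn (n + 1)) :=
  Set.range (fun i => rename Sum.inl (F i)) ∪ Set.range (fun i => tanP F i) ∪
    {X (Sum.inl k) - 1} ∪ {X (Sum.inr k)} ∪
    Set.range (fun s => rename Sum.inl (H s) * P s)

theorem zero_of_gens0 (hσ : ∀ j, SymForm F (m j) (σ j)) (him : Immersive F σ)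
    (hcov : Cov F σ js P H) {k : Fin (n + 1)} {b : Fin (n + 1) ⊕ Fin (n + 1) → ℂ}
    (hb : ∀ g ∈ gens0 F P H k, eval b g = 0) (l : Fin (n + 1)) : b (Sum.inr l) = 0 := by
  have h1 : b (Sum.inl k) = 1 := by
    have := hb (X (Sum.inl k) - 1) (Or.inl (Or.inl (Or.inr rfl)))
    rwa [map_sub, eval_X, map_one, sub_eq_zero] at this
  have h2 : b (Sum.inr k) = 0 := by
    have := hb (X (Sum.inr k)) (Or.inl (Or.inr rfl))
    rwa [eval_X] at this
  have h3 : ∀ i, eval (b ∘ Sum.inl) (F i) = 0 := fun i => by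
    have := hb _ (Or.inl (Or.inl (Or.inl (Or.inl ⟨i, rfl⟩))))
    rwa [eval_inl] at this
  have h4 : Tan F (b ∘ Sum.inl) (b ∘ Sum.inr) := fun i => by
    have := hb _ (Or.inl (Or.inl (Or.inl (Or.inr ⟨i, rfl⟩))))
    rwa [eval_tanP] at this
  have h5 : b ∈ Tg F k := ⟨h1, h2, h3, h4⟩
  by_contra hne
  have h6 : b ∘ Sum.inr ≠ 0 := fun h0 => hne (congrFun h0 l)
  obtain ⟨j, hj⟩ := exists_ne_zero hσ him (Tg.cone h5) h4 (not_mult (i := k) h1 h2 h6)
  obtain ⟨s, rfl, hs⟩ := hcov.cov _ (Tg.cone h5) j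
  apply hj
  have h7 := hcov.rep s _ (Tg.cone h5) hs _ h4
  rw [Sum.elim_comp_inl_inr] at h7
  have h8 := hb _ (Or.inr ⟨s, rfl⟩)
  rw [map_mul, eval_inl] at h8
  rw [h7, (mul_eq_zero.1 h8).resolve_left hs, zero_div]

theorem aeval_mem (V : ValuationSubring Ω) (hV : ∀ c : ℂ, algebraMap ℂ Ω c ∈ V) {τ' : Type}
    {p : τ' → Ω} (hp : ∀ l, p l ∈ V) (G : MvPolynomial τ' ℂ) : aeval p G ∈ V := by
  induction G using MvPolynomial.induction_on with
  | C c =>
    rw [aeval_C]
    exact hV c
  | add x y hx hy =>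
    rw [map_add]
    exact add_mem hx hy
  | mul_X x l hx =>
    rw [map_mul, aeval_X]
    exact mul_mem hx (hp l)

end

/-- **C3** -/
theorem c3 : Run7.h418.E.C3 := by
  intro hC1 n ι κ τ F m σ js P H c Ω _ _ i0 a d J α h g hg
  by_contra hcon
  push Not at hcon
  obtain ⟨V, hV, hgV⟩ := exists_place hcon
  obtain ⟨k, hk⟩ := Finite.exists_max (fun l => V.valuation (a (Sum.inl l)))
  have hk0 : a (Sum.inl k) ≠ 0 := by
    intro h0
    have := hk i0
    rw [h.ag.inl0, map_one, h0, map_zero] at this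
    exact absurd this (not_le.2 zero_lt_one)
  set w := ccM k a with hw
  have hx : ∀ l, w (Sum.inl l) ∈ V := by
    intro l
    rw [← V.valuation_le_one_iff]
    show V.valuation (a (Sum.inl l) / a (Sum.inl k)) ≤ 1
    rw [map_div₀]
    exact div_le_one_of_le₀ (hk l) zero_le'
  have hv : ¬ ∀ l, w (Sum.inr l) ∈ V := by
    intro hv
    refine hgV (mem_of_integral V hV ?_ (hg k hk0))
    rintro x ⟨l | l, rfl⟩
    · exact hx l
    · exact hv l
  obtain ⟨l0, hl0⟩ := Finite.exists_max (fun l => V.valuation (w (Sum.inr l)))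
  have hl1 : 1 < V.valuation (w (Sum.inr l0)) := by
    by_contra hle
    apply hv
    intro l
    rw [← V.valuation_le_one_iff]
    exact (hl0 l).trans (not_lt.1 hle)
  have hwne : w (Sum.inr l0) ≠ 0 := by
    intro h0
    rw [h0, map_zero] at hl1
    exact absurd hl1 (not_lt.2 zero_le')
  set lam := (w (Sum.inr l0))⁻¹ with hlamd
  have hlam : V.valuation lam < 1 := by
    rw [hlamd, map_inv₀]
    exact inv_lt_one_of_one_lt₀ hl1
  set p : Fin (n + 1) ⊕ Fin (n + 1) → Ω :=
    Sum.elim (w ∘ Sum.inl) (lam • (w ∘ Sum.inr)) with hp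
  have hpl : p ∘ Sum.inl = w ∘ Sum.inl := Sum.elim_comp_inl _ _
  have hpm : ∀ l, p l ∈ V := by
    rintro (l | l)
    · exact hx l
    · rw [← V.valuation_le_one_iff]
      show V.valuation (lam * w (Sum.inr l)) ≤ 1
      rw [map_mul, hlamd, map_inv₀, ← div_eq_inv_mul]
      exact div_le_one_of_le₀ (hl0 l) zero_le'
  have hp0 : p (Sum.inr l0) = 1 := by
    show lam * w (Sum.inr l0) = 1
    rw [hlamd, inv_mul_cancel₀ hwne]
  obtain ⟨N, hN⟩ := nullst (S := gens0 F P H k) (G := X (Sum.inr l0)) (fun b hb => by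
    rw [eval_X]
    exact zero_of_gens0 h.sym h.imm h.cov hb l0)
  have hval : ∀ G ∈ Ideal.span (gens0 F P H k), V.valuation (aeval p G) < 1 := by
    intro G hG
    induction hG using Submodule.span_induction with
    | mem G hG =>
      rcases hG with ((((⟨i, rfl⟩ | ⟨i, rfl⟩) | hG) | hG) | ⟨s, rfl⟩)
      · have : aeval p (rename Sum.inl (F i)) = 0 := by
          rw [aeval_inl, hpl]
          exact h.ag.cone k hk0 i
        show V.valuation (aeval p (rename Sum.inl (F i))) < 1
        rw [this, map_zero]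
        exact zero_lt_one
      · have : aeval p (tanP F i) = 0 := by
          rw [hp, tan_smul, h.ag.tan k hk0 i, mul_zero]
        show V.valuation (aeval p (tanP F i)) < 1
        rw [this, map_zero]
        exact zero_lt_one
      · rw [Set.mem_singleton_iff.1 hG, map_sub, aeval_X, map_one]
        have : p (Sum.inl k) = 1 := ccM_self_inl k hk0
        rw [this, sub_self, map_zero]
        exact zero_lt_one
      · rw [Set.mem_singleton_iff.1 hG, aeval_X]
        have : p (Sum.inr k) = 0 := by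
          show lam * w (Sum.inr k) = 0
          rw [hw, ccM_self_inr, mul_zero]
        rw [this, map_zero]
        exact zero_lt_one
      · show V.valuation (aeval p (rename Sum.inl (H s) * P s)) < 1
        rw [map_mul, aeval_inl, hpl, hp, val_smul hC1 h hk0 s lam, map_mul, map_pow]
        have h1 : V.valuation (algebraMap ℂ Ω (c (js s)) * aeval (w ∘ Sum.inl) (H s) ^ 2) ≤ 1 := by
          rw [V.valuation_le_one_iff]
          exact mul_mem (hV _) (pow_mem (aeval_mem V hV (fun l => hx l) _) 2)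
        have h2 : V.valuation lam ^ m (js s) < 1 := pow_lt_one₀ zero_le' hlam (h.pos _).ne'
        exact mul_lt_one_of_lt_of_le h2 h1
    | zero =>
      rw [map_zero, map_zero]
      exact zero_lt_one
    | add x y _ _ hx hy =>
      rw [map_add]
      exact (V.valuation.map_add _ _).trans_lt (max_lt hx hy)
    | smul r x _ hx =>
      rw [smul_eq_mul, map_mul, map_mul]
      exact (mul_le_of_le_one_left' ((V.valuation_le_one_iff _).2
        (aeval_mem V hV hpm r))).trans_lt hx
  have h1 := hval _ hN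
  rw [map_pow, aeval_X, hp0, one_pow, map_one] at h1
  exact lt_irrefl _ h1

end Run7.h711.EP
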